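import Mathlib
import Pool.Agent.R796.BCDefs
import Pool.Agent.R796.BCMan
import Pool.Agent.R796.BCNot

/-!
# MP_bc4532_gt, Q1 (negative answer)

There are a closed connected Riemannian manifold `M` (a smooth torus in `ℝ⁴` with the induced
Riemannian metric, given as a regular level set, with its geodesic distance) and a scale `r > 0`
such that for every `ε > 0` there is a finite `ε`-dense subset `X` of `M` with
`VR_<(X; r)` not homotopy equivalent to `VR_<(M; r)`.
-/

set_option autoImplicit false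

namespace Pool.Agent.Results.MP_bc4532_gt.DensityFails

open Pool.Agent.R796.BC Set
open scoped ENNReal

theorem result : ∃ M : Set (E 4), IsClosedManifold 2 M ∧ ∃ r : ℝ, 0 < r ∧
    (∀ (Y : Type) [TopologicalSpace Y] [CompactSpace Y],
      ¬ Nonempty (ContinuousMap.HomotopyEquiv Y (Realization (VR M M r)))) ∧
    ∀ ε : ℝ, 0 < ε → ∃ X : Set (E 4), X ⊆ M ∧ X.Finite ∧
      (∀ m ∈ M, ∃ x ∈ X, dM M m x < ENNReal.ofReal ε) ∧
      ¬ Nonempty (ContinuousMap.HomotopyEquiv (Realization (VR M X r))
        (Realization (VR M M r))) := by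
  obtain ⟨Ψ, hΨ⟩ := exists_prof
  refine ⟨surf Ψ, isClosedManifold_surf hΨ, 2 * Real.pi / 3, by positivity,
    fun Y _ _ => not_compact hΨ Y, ?_⟩
  intro ε hε
  obtain ⟨X, hX, hXf, hXd⟩ := exists_net hΨ hε
  refine ⟨X, hX, hXf, hXd, ?_⟩
  have hfin : (VR (surf Ψ) X (2 * Real.pi / 3)).Finite := by
    refine (hXf.toFinset.powerset.finite_toSet).subset ?_
    intro σ hσ
    rw [Finset.mem_coe, Finset.mem_powerset]
    intro v hv
    exact hXf.mem_toFinset.2 (hσ.2.1 hv)
  have := compact_of_finite (isCpx_VR (surf Ψ) X (2 * Real.pi / 3)) hfin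
  exact not_compact hΨ _

end Pool.Agent.Results.MP_bc4532_gt.DensityFails
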